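import Mathlib

set_option autoImplicit false

namespace Pool.Agent.MP_c24244_an.H97

/-- `β(Y) ≤ ρ`: Lindenstrauss' property β with constant `ρ`. -/
def HasBeta (Y : Type) [NormedAddCommGroup Y] [NormedSpace ℝ Y] (ρ : ℝ) : Prop :=
  ∃ (Λ : Type) (y : Λ → Y) (φ : Λ → (Y →L[ℝ] ℝ)),
    (∀ a, ‖y a‖ = 1) ∧ (∀ a, ‖φ a‖ = 1) ∧ (∀ a, φ a (y a) = 1) ∧
    (∀ a c, a ≠ c → |φ a (y c)| ≤ ρ) ∧
    (∀ v : Y, ‖v‖ = sSup {r : ℝ | ∃ a, r = |φ a v|})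

/-- distance, in the max metric, from `(x, T)` to the set of norm attaining pairs `Π(X, Y)` -/
noncomputable def distToPi {X Y : Type} [NormedAddCommGroup X] [NormedSpace ℝ X]
    [NormedAddCommGroup Y] [NormedSpace ℝ Y] (x : X) (T : X →L[ℝ] Y) : ℝ :=
  sInf {r : ℝ | ∃ (z : X) (F : X →L[ℝ] Y), ‖z‖ = 1 ∧ ‖F‖ = 1 ∧ ‖F z‖ = 1 ∧
    r = max ‖x - z‖ ‖T - F‖}

/-- the spherical Bishop-Phelps-Bollobas modulus `Φ^S(X, Y, ε)` -/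
noncomputable def PhiS (X Y : Type) [NormedAddCommGroup X] [NormedSpace ℝ X]
    [NormedAddCommGroup Y] [NormedSpace ℝ Y] (ε : ℝ) : ℝ :=
  sSup {d : ℝ | ∃ (x : X) (T : X →L[ℝ] Y), ‖x‖ = 1 ∧ ‖T‖ = 1 ∧ 1 - ε < ‖T x‖ ∧
    d = distToPi x T}

end Pool.Agent.MP_c24244_an.H97
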