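import Pool.Agent.MP_c24244_an.H97.Defs

set_option autoImplicit false

namespace Pool.Agent.MP_c24244_an.H97

/-- the plane with an octagonal norm, inside the four-dimensional sup-norm space -/
def W : Submodule ℝ (Fin 4 → ℝ) where
  carrier := {v | 10 * v 2 = 7 * (v 0 + v 1) ∧ 10 * v 3 = 7 * (v 0 - v 1)}
  add_mem' := by
    rintro a b ⟨h1, h2⟩ ⟨h3, h4⟩
    constructor <;> simp only [Pi.add_apply] <;> linarith
  zero_mem' := by simp
  smul_mem' := by
    rintro c a ⟨h1, h2⟩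
    constructor <;> simp only [Pi.smul_apply, smul_eq_mul]
    · linear_combination c * h1
    · linear_combination c * h2

/-- the vector with first coordinates `a`, `b` -/
noncomputable def mk (a b : ℝ) : W :=
  ⟨![a, b, 7 / 10 * (a + b), 7 / 10 * (a - b)], by
    constructor <;> simp <;> ring⟩

theorem coord_le (v : W) (k : Fin 4) : |v.1 k| ≤ ‖v‖ := norm_le_pi_norm v.1 k

theorem norm_le_of (v : W) {r : ℝ} (hr : 0 ≤ r) (h : ∀ k, |v.1 k| ≤ r) : ‖v‖ ≤ r :=
  (pi_norm_le_iff_of_nonneg hr).2 h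

theorem exists_coord (v : W) : ∃ k, |v.1 k| = ‖v‖ := by
  obtain ⟨k, -, hk⟩ := Finset.exists_max_image Finset.univ (fun k => |v.1 k|) Finset.univ_nonempty
  exact ⟨k, le_antisymm (coord_le v k) (norm_le_of v (abs_nonneg _) fun j => hk j (Finset.mem_univ _))⟩

/-- coordinate functionals -/
noncomputable def phi (k : Fin 4) : W →L[ℝ] ℝ :=
  (ContinuousLinearMap.proj k).comp W.subtypeL

theorem phi_apply (k : Fin 4) (v : W) : phi k v = v.1 k := rfl

/-- midpoints of four facets -/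
noncomputable def mid : Fin 4 → W := ![mk 1 0, mk 0 1, mk (5 / 7) (5 / 7), mk (5 / 7) (-5 / 7)]

theorem mid_diag (a : Fin 4) : (mid a).1 a = 1 := by
  fin_cases a <;> simp [mid, mk] <;> norm_num

theorem mid_off (a c : Fin 4) (h : a ≠ c) : |(mid c).1 a| ≤ 5 / 7 := by
  fin_cases a <;> fin_cases c <;> simp [mid, mk, abs_le] at h ⊢ <;> norm_num

theorem norm_mid (a : Fin 4) : ‖mid a‖ = 1 := by
  refine le_antisymm (norm_le_of _ zero_le_one fun k => ?_) ?_
  · by_cases h : k = a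
    · rw [h, mid_diag]; simp
    · exact (mid_off k a h).trans (by norm_num)
  · have := coord_le (mid a) a
    rwa [mid_diag, abs_one] at this

theorem hasBeta : HasBeta W (5 / 7) := by
  refine ⟨Fin 4, mid, phi, norm_mid, fun a => ?_, mid_diag, mid_off, fun v => ?_⟩
  · refine le_antisymm (ContinuousLinearMap.opNorm_le_bound _ zero_le_one fun v => ?_) ?_
    · rw [one_mul]; exact coord_le v a
    · have := (phi a).le_opNorm (mid a)
      rw [norm_mid, phi_apply, mid_diag] at this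
      simpa using this
  · symm
    refine IsGreatest.csSup_eq ⟨?_, ?_⟩
    · obtain ⟨k, hk⟩ := exists_coord v
      exact ⟨k, hk.symm⟩
    · rintro r ⟨k, rfl⟩
      exact coord_le v k

/-- five-dimensional `ℓ¹` -/
abbrev L : Type := PiLp 1 (fun _ : Fin 5 => ℝ)

/-- unit vectors -/
noncomputable def e (i : Fin 5) : L := PiLp.single 1 i 1

theorem norm_e (i : Fin 5) : ‖e i‖ = 1 := by simp [e]

theorem norm_L (x : L) : ‖x‖ = ∑ i, |x i| := PiLp.norm_eq_of_L1 x

theorem decomp (x : L) : x = ∑ i, x i • e i := by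
  ext j
  simp [e, Pi.single_apply]

theorem apply_eq (F : L →L[ℝ] W) (x : L) : F x = ∑ i, x i • F (e i) := by
  conv_lhs => rw [decomp x]
  simp

/-- images of the unit vectors -/
noncomputable def yy : Fin 5 → W :=
  ![mk (5 / 7) (5 / 7), mk 0 1, mk (-1) 0, mk (-5 / 7) (-5 / 7), mk (5 / 7) (-5 / 7)]

theorem norm_yy_le (i : Fin 5) : ‖yy i‖ ≤ 1 := by
  refine norm_le_of _ zero_le_one fun k => ?_
  fin_cases i <;> fin_cases k <;> simp [yy, mk, abs_le] <;> norm_num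

/-- the operator -/
noncomputable def T : L →L[ℝ] W := ∑ i, (PiLp.proj 1 (fun _ : Fin 5 => ℝ) i).smulRight (yy i)

theorem T_apply (x : L) : T x = ∑ i, x i • yy i := by
  simp [T]

theorem T_e (i : Fin 5) : T (e i) = yy i := by
  simp [T_apply, e, Pi.single_apply]

theorem norm_T_e : ‖T (e 1)‖ = 1 := by
  rw [T_e]
  refine le_antisymm (norm_yy_le 1) ?_
  have := coord_le (yy 1) 1
  simpa [yy, mk] using this

theorem norm_T : ‖T‖ = 1 := by
  refine le_antisymm (ContinuousLinearMap.opNorm_le_bound _ zero_le_one fun x => ?_) ?_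
  · rw [T_apply, one_mul, norm_L]
    refine (norm_sum_le _ _).trans (Finset.sum_le_sum fun i _ => ?_)
    rw [norm_smul, Real.norm_eq_abs]
    exact mul_le_of_le_one_right (abs_nonneg _) (norm_yy_le i)
  · have := T.le_opNorm (e 1)
    rwa [norm_T_e, norm_e, mul_one] at this

/-- the barycentre -/
noncomputable def x₀ : L := WithLp.toLp 1 fun _ => 1 / 5

theorem norm_x₀ : ‖x₀‖ = 1 := by
  rw [norm_L]
  simp [x₀]

theorem norm_T_x₀ : 1 - 19 / 20 < ‖T x₀‖ := by
  have := coord_le (T x₀) 3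
  refine lt_of_lt_of_le ?_ this
  rw [T_apply]
  simp [Fin.sum_univ_five, x₀, yy, mk]
  norm_num [abs_of_neg]

theorem far_norm (z : L) (hz : ‖z‖ = 1) (c : Fin 5 → ℝ) (hc : ∀ i, c i = -1 ∨ (c i = 1 ∧ z i ≤ 0))
    (hs : 1 ≤ ∑ i, c i) : 6 / 5 ≤ ‖x₀ - z‖ := by
  rw [norm_L] at hz ⊢
  have h : ∀ i, |z i| + c i / 5 ≤ |(x₀ - z) i| := by
    intro i
    have e1 : (x₀ - z) i = 1 / 5 - z i := by simp [x₀]
    rw [e1]
    rcases hc i with h | ⟨h, h'⟩
    · rw [h]
      rcases abs_cases (z i) with ⟨h1, _⟩ | ⟨h1, _⟩ <;>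
        rcases abs_cases (1 / 5 - z i) with ⟨h2, _⟩ | ⟨h2, _⟩ <;> linarith
    · rw [h, abs_of_nonpos h', abs_of_nonneg (by linarith)]
      linarith
  have h2 := Finset.sum_le_sum fun i (_ : i ∈ Finset.univ) => h i
  rw [Finset.sum_add_distrib, hz, ← Finset.sum_div] at h2
  linarith

theorem support_facet (F : L →L[ℝ] W) (hF : ‖F‖ = 1) (z : L) (hz : ‖z‖ = 1) (k : Fin 4) (s : ℝ)
    (hs : |s| = 1) (h : s * (F z).1 k = 1) (i : Fin 5) (hi : s * (F (e i)).1 k < 1) : z i ≤ 0 := by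
  by_contra hpos
  push Not at hpos
  have hb : ∀ j, |s * (F (e j)).1 k| ≤ 1 := by
    intro j
    rw [abs_mul, hs, one_mul]
    refine (coord_le _ k).trans ?_
    have := F.le_opNorm (e j)
    rwa [hF, norm_e, mul_one] at this
  have h1 : s * (F z).1 k = ∑ j, z j * (s * (F (e j)).1 k) := by
    rw [apply_eq F z]
    simp only [Submodule.coe_sum, Finset.sum_apply, Submodule.coe_smul, Pi.smul_apply, smul_eq_mul,
      Finset.mul_sum]
    exact Finset.sum_congr rfl fun j _ => by ring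
  have h2 : ∑ j, z j * (s * (F (e j)).1 k) < ∑ j, |z j| := by
    refine Finset.sum_lt_sum (fun j _ => ?_) ⟨i, Finset.mem_univ _, ?_⟩
    · refine (le_abs_self _).trans ?_
      rw [abs_mul]
      exact mul_le_of_le_one_right (abs_nonneg _) (hb j)
    · rw [abs_of_pos hpos]
      nlinarith
  rw [← h1, h, ← norm_L, hz] at h2
  exact lt_irrefl _ h2

/-- which unit vectors are far from the facet `(k, +)` -/
def cpos : Fin 4 → Fin 5 → ℝ :=
  ![![-1, 1, 1, 1, -1], ![-1, -1, 1, 1, 1], ![-1, -1, 1, 1, 1], ![1, 1, 1, 1, -1]]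

/-- which unit vectors are far from the facet `(k, -)` -/
def cneg : Fin 4 → Fin 5 → ℝ :=
  ![![1, 1, -1, -1, 1], ![1, 1, 1, -1, -1], ![1, 1, -1, -1, 1], ![1, -1, -1, 1, 1]]

theorem far_pos (w : W) (hw : ‖w‖ ≤ 1) (i : Fin 5) (hd : ‖yy i - w‖ < 21 / 20) (k : Fin 4) :
    cpos k i = -1 ∨ (cpos k i = 1 ∧ 1 * w.1 k < 1) := by
  obtain ⟨h1, h2⟩ := w.2
  have a0 := abs_le.1 ((coord_le w 0).trans hw)
  have a1 := abs_le.1 ((coord_le w 1).trans hw)
  have a2 := abs_le.1 ((coord_le w 2).trans hw)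
  have a3 := abs_le.1 ((coord_le w 3).trans hw)
  have b0 := abs_lt.1 ((coord_le _ 0).trans_lt hd)
  have b1 := abs_lt.1 ((coord_le _ 1).trans_lt hd)
  have b2 := abs_lt.1 ((coord_le _ 2).trans_lt hd)
  have b3 := abs_lt.1 ((coord_le _ 3).trans_lt hd)
  fin_cases i <;> simp [yy, mk] at b0 b1 b2 b3 <;> fin_cases k <;> simp [cpos] <;>
    (right; linarith [a0.1, a0.2, a1.1, a1.2, a2.1, a2.2, a3.1, a3.2, b0.1, b0.2, b1.1, b1.2,
      b2.1, b2.2, b3.1, b3.2])

theorem far_neg (w : W) (hw : ‖w‖ ≤ 1) (i : Fin 5) (hd : ‖yy i - w‖ < 21 / 20) (k : Fin 4) :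
    cneg k i = -1 ∨ (cneg k i = 1 ∧ -1 * w.1 k < 1) := by
  obtain ⟨h1, h2⟩ := w.2
  have a0 := abs_le.1 ((coord_le w 0).trans hw)
  have a1 := abs_le.1 ((coord_le w 1).trans hw)
  have a2 := abs_le.1 ((coord_le w 2).trans hw)
  have a3 := abs_le.1 ((coord_le w 3).trans hw)
  have b0 := abs_lt.1 ((coord_le _ 0).trans_lt hd)
  have b1 := abs_lt.1 ((coord_le _ 1).trans_lt hd)
  have b2 := abs_lt.1 ((coord_le _ 2).trans_lt hd)
  have b3 := abs_lt.1 ((coord_le _ 3).trans_lt hd)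
  fin_cases i <;> simp [yy, mk] at b0 b1 b2 b3 <;> fin_cases k <;> simp [cneg] <;>
    (right; linarith [a0.1, a0.2, a1.1, a1.2, a2.1, a2.2, a3.1, a3.2, b0.1, b0.2, b1.1, b1.2,
      b2.1, b2.2, b3.1, b3.2])

theorem main_bound (z : L) (F : L →L[ℝ] W) (hz : ‖z‖ = 1) (hF : ‖F‖ = 1) (hFz : ‖F z‖ = 1) :
    21 / 20 ≤ max ‖x₀ - z‖ ‖T - F‖ := by
  by_contra hlt
  push Not at hlt
  have h1 : ‖x₀ - z‖ < 21 / 20 := (le_max_left _ _).trans_lt hlt
  have h2 : ‖T - F‖ < 21 / 20 := (le_max_right _ _).trans_lt hlt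
  have hw : ∀ i, ‖F (e i)‖ ≤ 1 := by
    intro j
    have := F.le_opNorm (e j)
    rwa [hF, norm_e, mul_one] at this
  have hd : ∀ i, ‖yy i - F (e i)‖ < 21 / 20 := by
    intro j
    have := (T - F).le_opNorm (e j)
    rw [norm_e, mul_one, ContinuousLinearMap.sub_apply, T_e] at this
    exact this.trans_lt h2
  obtain ⟨k, hk⟩ := exists_coord (F z)
  rw [hFz] at hk
  rcases (abs_eq zero_le_one).1 hk with h | h
  · have := far_norm z hz (cpos k) (fun i => ?_) ?_
    · linarith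
    · rcases far_pos _ (hw i) i (hd i) k with h' | ⟨h', h''⟩
      · exact Or.inl h'
      · exact Or.inr ⟨h', support_facet F hF z hz k 1 (by simp) (by simp [h]) i h''⟩
    · fin_cases k <;> simp [cpos, Fin.sum_univ_five] <;> norm_num
  · have := far_norm z hz (cneg k) (fun i => ?_) ?_
    · linarith
    · rcases far_neg _ (hw i) i (hd i) k with h' | ⟨h', h''⟩
      · exact Or.inl h'
      · exact Or.inr ⟨h', support_facet F hF z hz k (-1) (by simp) (by simp [h]) i h''⟩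
    · fin_cases k <;> simp [cneg, Fin.sum_univ_five] <;> norm_num

theorem dist_lower : 21 / 20 ≤ distToPi x₀ T := by
  refine le_csInf ⟨_, e 1, T, norm_e 1, norm_T, norm_T_e, rfl⟩ ?_
  rintro r ⟨z, F, hz, hF, hFz, rfl⟩
  exact main_bound z F hz hF hFz

theorem dist_upper (x : L) (S : L →L[ℝ] W) (hx : ‖x‖ = 1) (hS : ‖S‖ = 1) : distToPi x S ≤ 2 := by
  refine csInf_le_of_le ⟨0, ?_⟩ ⟨e 1, T, norm_e 1, norm_T, norm_T_e, rfl⟩ (max_le ?_ ?_)
  · rintro r ⟨z, F, -, -, -, rfl⟩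
    exact le_max_of_le_left (norm_nonneg _)
  · refine (norm_sub_le _ _).trans ?_
    rw [hx, norm_e]; norm_num
  · refine (norm_sub_le _ _).trans ?_
    rw [hS, norm_T]; norm_num

theorem PhiS_lower : 21 / 20 ≤ PhiS L W (19 / 20) := by
  refine dist_lower.trans (le_csSup ⟨2, ?_⟩ ⟨x₀, T, norm_x₀, norm_T, norm_T_x₀, rfl⟩)
  rintro d ⟨x, S, hx, hS, -, rfl⟩
  exact dist_upper x S hx hS

end Pool.Agent.MP_c24244_an.H97
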